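import Pool.Agent.R140.JBS
import Pool.Agent.R140.Miss

set_option autoImplicit false

/-!
# MP_1b21e4_co, Q1: spheres in `S(k-1, 2k-1)` with `g_k = 1`

Q1 has a negative answer.  Every join `∂σ^a * ∂σ^b * ∂σ^c` with `a + b + c = 2k` and
`1 ≤ a, b, c ≤ k - 1` is in `S(k-1, 2k-1)` and has `g_k = 1`.  For every `k ≥ 5` the join
`∂σ^(k-1) * ∂σ^(k-2) * ∂σ^3` is one of these, and it is not isomorphic to any `K(i, 2k-1)` with
`2k/3 ≤ i < k`.
-/

open Finset

namespace Pool.Agent.Results.MP_1b21e4_co.ThreeJoins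

open Pool.Agent.R140.Sph

/-! ### The complexes `K(i, d-1)` -/

/-- The `j`-th block: the `q` blocks `j < q` have `i + 1` elements, the block `j = q` has `r + 1`
elements, and the blocks follow each other in `ℕ`. -/
def block (i q r j : ℕ) : Finset ℕ :=
  if j < q then Ico (j * (i + 1)) (j * (i + 1) + (i + 1)) else Ico (j * (i + 1)) (j * (i + 1) + (r + 1))

/-- The blocks `j = 0, …, q`. -/
def blocks (i q r : ℕ) : Finset (Finset ℕ) := (range (q + 1)).image (block i q r)

lemma block_card (i q r j : ℕ) : (block i q r j).card = if j < q then i + 1 else r + 1 := by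
  unfold block
  split_ifs <;> simp

lemma empty_notMem (i q r : ℕ) : ∅ ∉ blocks i q r := by
  intro h
  obtain ⟨j, _, hj⟩ := Finset.mem_image.1 h
  have h1 := block_card i q r j
  rw [hj, Finset.card_empty] at h1
  split_ifs at h1 <;> omega

/-- The complex `K(i, d-1)` for `d = q i + r`, `1 ≤ r ≤ i`: the join of `q` copies of the boundary
complex of the `i`-simplex and the boundary complex of the `r`-simplex. -/
def K (i q r : ℕ) : Cplx := joinBdry (blocks i q r) (empty_notMem i q r)

lemma block_disj {i q r j j' : ℕ} (hri : r ≤ i) (h : j < j') :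
    Disjoint (block i q r j) (block i q r j') := by
  rw [Finset.disjoint_left]
  intro x hx hx'
  have h1 : x < j * (i + 1) + (i + 1) := by
    unfold block at hx
    split_ifs at hx <;> rw [Finset.mem_Ico] at hx <;> omega
  have h2 : j' * (i + 1) ≤ x := by
    unfold block at hx'
    split_ifs at hx' <;> rw [Finset.mem_Ico] at hx' <;> omega
  have h3 : (j + 1) * (i + 1) ≤ j' * (i + 1) := Nat.mul_le_mul_right _ h
  have h4 : (j + 1) * (i + 1) = j * (i + 1) + (i + 1) := by ring
  omega

lemma block_nonempty (i q r j : ℕ) : (block i q r j).Nonempty := by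
  rw [← Finset.card_pos, block_card]
  split_ifs <;> omega

lemma block_inj {i q r : ℕ} (hri : r ≤ i) : Function.Injective (block i q r) := by
  intro j j' h
  by_contra hne
  rcases Nat.lt_or_gt_of_ne hne with hlt | hlt
  · have h1 := block_disj (q := q) hri hlt
    rw [h, disjoint_self] at h1
    exact (block_nonempty i q r j').ne_empty h1
  · have h1 := block_disj (q := q) hri hlt
    rw [h, disjoint_self] at h1
    exact (block_nonempty i q r j').ne_empty h1

lemma blocks_disj {i q r : ℕ} (hri : r ≤ i) :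
    (blocks i q r : Set (Finset ℕ)).PairwiseDisjoint id := by
  intro B hB B' hB' hne
  obtain ⟨j, _, rfl⟩ := Finset.mem_image.1 (Finset.mem_coe.1 hB)
  obtain ⟨j', _, rfl⟩ := Finset.mem_image.1 (Finset.mem_coe.1 hB')
  have hjj : j ≠ j' := fun h => hne (by rw [h])
  rcases Nat.lt_or_gt_of_ne hjj with hlt | hlt
  · exact block_disj hri hlt
  · exact (block_disj hri hlt).symm

/-! ### Joins of three boundary complexes of simplices -/

/-- Three consecutive blocks with `a + 1`, `b + 1` and `c + 1` elements. -/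
def blocks3 (a b c : ℕ) : Finset (Finset ℕ) :=
  {Ico 0 (a + 1), Ico (a + 1) (a + b + 2), Ico (a + b + 2) (a + b + c + 3)}

lemma empty_notMem3 (a b c : ℕ) : ∅ ∉ blocks3 a b c := by
  intro h
  unfold blocks3 at h
  simp only [Finset.mem_insert, Finset.mem_singleton] at h
  rcases h with h | h | h <;>
  · have := congrArg Finset.card h
    rw [Finset.card_empty, Nat.card_Ico] at this
    omega

/-- The join `∂σ^a * ∂σ^b * ∂σ^c`. -/
def J (a b c : ℕ) : Cplx := joinBdry (blocks3 a b c) (empty_notMem3 a b c)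

lemma ne12 (a b : ℕ) : Ico 0 (a + 1) ≠ Ico (a + 1) (a + b + 2) := by
  intro h
  have : (0 : ℕ) ∈ Ico (a + 1) (a + b + 2) := by rw [← h, Finset.mem_Ico]; omega
  rw [Finset.mem_Ico] at this
  omega

lemma ne13 (a b c : ℕ) : Ico 0 (a + 1) ≠ Ico (a + b + 2) (a + b + c + 3) := by
  intro h
  have : (0 : ℕ) ∈ Ico (a + b + 2) (a + b + c + 3) := by rw [← h, Finset.mem_Ico]; omega
  rw [Finset.mem_Ico] at this
  omega

lemma ne23 (a b c : ℕ) : Ico (a + 1) (a + b + 2) ≠ Ico (a + b + 2) (a + b + c + 3) := by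
  intro h
  have : (a + 1 : ℕ) ∈ Ico (a + b + 2) (a + b + c + 3) := by rw [← h, Finset.mem_Ico]; omega
  rw [Finset.mem_Ico] at this
  omega

lemma disj3 (a b c : ℕ) : (blocks3 a b c : Set (Finset ℕ)).PairwiseDisjoint id := by
  have h12 : Disjoint (Ico 0 (a + 1)) (Ico (a + 1) (a + b + 2)) := by
    rw [Finset.disjoint_left]; intro x hx hx'; rw [Finset.mem_Ico] at hx hx'; omega
  have h13 : Disjoint (Ico 0 (a + 1)) (Ico (a + b + 2) (a + b + c + 3)) := by
    rw [Finset.disjoint_left]; intro x hx hx'; rw [Finset.mem_Ico] at hx hx'; omega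
  have h23 : Disjoint (Ico (a + 1) (a + b + 2)) (Ico (a + b + 2) (a + b + c + 3)) := by
    rw [Finset.disjoint_left]; intro x hx hx'; rw [Finset.mem_Ico] at hx hx'; omega
  intro B hB C hC hne
  unfold blocks3 at hB hC
  simp only [Finset.coe_insert, Finset.coe_singleton, Set.mem_insert_iff,
    Set.mem_singleton_iff] at hB hC
  rcases hB with rfl | rfl | rfl <;> rcases hC with rfl | rfl | rfl
  · exact absurd rfl hne
  · exact h12
  · exact h13
  · exact h12.symm
  · exact absurd rfl hne
  · exact h23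
  · exact h13.symm
  · exact h23.symm
  · exact absurd rfl hne

lemma card3 (a b c : ℕ) : (blocks3 a b c).card = 3 := by
  unfold blocks3
  rw [Finset.card_insert_of_notMem, Finset.card_pair (ne23 a b c)]
  rw [Finset.mem_insert, Finset.mem_singleton]
  rintro (h | h)
  · exact ne12 a b h
  · exact ne13 a b c h

lemma sum3 (a b c : ℕ) : ∑ B ∈ blocks3 a b c, B.card = (a + b + c) + (blocks3 a b c).card := by
  rw [card3]
  unfold blocks3
  rw [Finset.sum_insert, Finset.sum_pair (ne23 a b c)]
  · simp only [Nat.card_Ico]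
    omega
  · rw [Finset.mem_insert, Finset.mem_singleton]
    rintro (h | h)
    · exact ne12 a b h
    · exact ne13 a b c h

lemma card_le3 {a b c m : ℕ} (ha : a ≤ m) (hb : b ≤ m) (hc : c ≤ m) :
    ∀ B ∈ blocks3 a b c, B.card ≤ m + 1 := by
  intro B hB
  unfold blocks3 at hB
  simp only [Finset.mem_insert, Finset.mem_singleton] at hB
  rcases hB with rfl | rfl | rfl <;> rw [Nat.card_Ico] <;> omega

open Polynomial

/-- `g_k` of a join of three boundary complexes of simplices -/
lemma gNum3 {a b c k : ℕ} (hs : a + b + c = 2 * k) (ha : a + 1 ≤ k) (hb : b + 1 ≤ k)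
    (hc : c + 1 ≤ k) : gNum (2 * k) (J a b c).faces k = 1 := by
  change gNum (2 * k) (jbFaces (blocks3 a b c)) k = 1
  have h0 := sum3 a b c
  rw [hs] at h0
  have hY : ∀ F ∈ jbFaces (blocks3 a b c), F.card ≤ 2 * k := fun F hF =>
    card_jb _ (disj3 a b c) _ h0 hF
  obtain ⟨l, rfl⟩ : ∃ l, k = l + 1 := ⟨k - 1, by omega⟩
  rw [gNum_eq_coeff hY (by omega)]
  have h1 := hPoly_jb (blocks3 a b c) (disj3 a b c) (2 * (l + 1)) h0
  set Q : ℤ[X] := (1 - X) * hPoly (2 * (l + 1)) (jbFaces (blocks3 a b c)) with hQ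
  have h2 : Q * (1 - X) ^ 2 =
      (1 - (X : ℤ[X]) ^ (a + 1)) * ((1 - (X : ℤ[X]) ^ (b + 1)) * (1 - (X : ℤ[X]) ^ (c + 1))) := by
    have h3 : ∏ B ∈ blocks3 a b c, (1 - (X : ℤ[X]) ^ B.card) =
        (1 - (X : ℤ[X]) ^ (a + 1)) * ((1 - (X : ℤ[X]) ^ (b + 1)) * (1 - (X : ℤ[X]) ^ (c + 1))) := by
      unfold blocks3
      rw [Finset.prod_insert, Finset.prod_pair (ne23 a b c)]
      · simp only [Nat.card_Ico]
        rw [show a + 1 - 0 = a + 1 by omega, show a + b + 2 - (a + 1) = b + 1 by omega,
          show a + b + c + 3 - (a + b + 2) = c + 1 by omega]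
      · rw [Finset.mem_insert, Finset.mem_singleton]
        rintro (h | h)
        · exact ne12 a b h
        · exact ne13 a b c h
    rw [← h3, ← h1, card3, hQ]
    ring
  -- the coefficients of the right hand side
  have h4 : (1 - (X : ℤ[X]) ^ (a + 1)) * ((1 - (X : ℤ[X]) ^ (b + 1)) * (1 - (X : ℤ[X]) ^ (c + 1))) =
      1 - X ^ (a + 1) - X ^ (b + 1) - X ^ (c + 1) + X ^ (a + b + 2) + X ^ (a + c + 2)
        + X ^ (b + c + 2) - X ^ (a + b + c + 3) := by ring
  have h5 : Q * (1 - X) ^ 2 = Q - 2 * (X * Q) + X * (X * Q) := by ring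
  rw [h4, h5] at h2
  have h6 : ∀ j, (Q - 2 * (X * Q) + X * (X * Q)).coeff j =
      (1 - X ^ (a + 1) - X ^ (b + 1) - X ^ (c + 1) + X ^ (a + b + 2) + X ^ (a + c + 2)
        + X ^ (b + c + 2) - X ^ (a + b + c + 3) : ℤ[X]).coeff j := fun j => by rw [h2]
  simp only [Polynomial.coeff_add, Polynomial.coeff_sub, Polynomial.coeff_X_pow,
    Polynomial.coeff_one] at h6
  have h7 : ∀ (P : ℤ[X]) (j : ℕ), (2 * P).coeff j = 2 * P.coeff j := by
    intro P j
    rw [two_mul, Polynomial.coeff_add, two_mul]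
  simp only [h7] at h6
  -- the first two coefficients
  have e0 : Q.coeff 0 = 1 := by
    have := h6 0
    simp only [Polynomial.coeff_X_mul_zero] at this
    have n1 : (0 = a + 1) = False := by simp
    have n2 : (0 = b + 1) = False := by simp
    have n3 : (0 = c + 1) = False := by simp
    have n4 : (0 = a + b + 2) = False := by simp
    have n5 : (0 = a + c + 2) = False := by simp
    have n6 : (0 = b + c + 2) = False := by simp
    have n7 : (0 = a + b + c + 3) = False := by simp
    simp only [n1, n2, n3, n4, n5, n6, n7, if_true, if_false] at this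
    linarith
  have e1 : ∀ j, j + 1 ≤ l + 1 → Q.coeff (j + 1) = 2 * Q.coeff j -
      (if j = 0 then 0 else Q.coeff (j - 1)) - (if j = a then 1 else 0)
        - (if j = b then 1 else 0) - (if j = c then 1 else 0) := by
    intro j hj
    have := h6 (j + 1)
    rw [Polynomial.coeff_X_mul, Polynomial.coeff_X_mul] at this
    have n0 : (j + 1 = 0) = False := by simp
    have n1 : (j + 1 = a + 1) = (j = a) := by simp
    have n2 : (j + 1 = b + 1) = (j = b) := by simp
    have n3 : (j + 1 = c + 1) = (j = c) := by simp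
    have n4 : (j + 1 = a + b + 2) = False := by
      rw [eq_iff_iff]; constructor
      · intro h; omega
      · exact fun h => h.elim
    have n5 : (j + 1 = a + c + 2) = False := by
      rw [eq_iff_iff]; constructor
      · intro h; omega
      · exact fun h => h.elim
    have n6 : (j + 1 = b + c + 2) = False := by
      rw [eq_iff_iff]; constructor
      · intro h; omega
      · exact fun h => h.elim
    have n7 : (j + 1 = a + b + c + 3) = False := by
      rw [eq_iff_iff]; constructor
      · intro h; omega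
      · exact fun h => h.elim
    simp only [n0, n1, n2, n3, n4, n5, n6, n7, if_false] at this
    cases j with
    | zero =>
      rw [Polynomial.coeff_X_mul_zero] at this
      rw [if_pos rfl]
      linarith
    | succ j =>
      rw [Polynomial.coeff_X_mul] at this
      rw [if_neg (Nat.succ_ne_zero j), Nat.add_sub_cancel]
      linarith
  -- the coefficients of `Q`
  have e2 : ∀ j, j ≤ l + 1 → Q.coeff j =
      (j : ℤ) + 1 - ((j - a : ℕ) : ℤ) - ((j - b : ℕ) : ℤ) - ((j - c : ℕ) : ℤ) := by
    intro j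
    induction j using Nat.strong_induction_on with
    | _ j ih =>
      intro hj
      cases j with
      | zero => rw [e0]; simp
      | succ j =>
        rw [e1 j hj, ih j (by omega) (by omega)]
        by_cases hj0 : j = 0
        · subst hj0
          rw [if_pos rfl]
          split_ifs <;> omega
        · rw [if_neg hj0, ih (j - 1) (by omega) (by omega)]
          split_ifs <;> omega
  rw [e2 (l + 1) le_rfl]
  omega

/-! ### Isomorphisms preserve missing faces -/

lemma iso_missing {X Y : Cplx} {φ : ℕ → ℕ} (hb : Set.BijOn φ (verts X) (verts Y))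
    (hf : ∀ F ⊆ verts X, (F ∈ X.faces ↔ F.image φ ∈ Y.faces)) {τ : Finset ℕ} (hτ : τ ⊆ verts X) :
    IsMissing X τ ↔ IsMissing Y (τ.image φ) := by
  classical
  constructor
  · rintro ⟨h1, h2⟩
    refine ⟨fun h => h1 ((hf τ hτ).2 h), fun ρ hρ => ?_⟩
    have h3 : (τ.filter fun x => φ x ∈ ρ).image φ = ρ := by
      ext y
      rw [Finset.mem_image]
      constructor
      · rintro ⟨x, hx, rfl⟩
        exact (Finset.mem_filter.1 hx).2
      · intro hy
        obtain ⟨x, hx, rfl⟩ := Finset.mem_image.1 (hρ.1 hy)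
        exact ⟨x, Finset.mem_filter.2 ⟨hx, hy⟩, rfl⟩
    have h4 : (τ.filter fun x => φ x ∈ ρ) ⊂ τ := by
      rw [Finset.ssubset_iff_subset_ne]
      refine ⟨Finset.filter_subset _ _, fun h => ?_⟩
      rw [h] at h3
      exact hρ.ne h3.symm
    have h5 := (hf _ (h4.1.trans hτ)).1 (h2 _ h4)
    rwa [h3] at h5
  · rintro ⟨h1, h2⟩
    refine ⟨fun h => h1 ((hf τ hτ).1 h), fun ρ hρ => ?_⟩
    apply (hf ρ (hρ.1.trans hτ)).2
    apply h2
    rw [Finset.ssubset_iff_subset_ne]
    refine ⟨Finset.image_subset_image hρ.1, fun h => ?_⟩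
    obtain ⟨x, hx, hxρ⟩ := Finset.exists_of_ssubset hρ
    have h3 : φ x ∈ ρ.image φ := by rw [h]; exact Finset.mem_image_of_mem φ hx
    obtain ⟨z, hz, hzx⟩ := Finset.mem_image.1 h3
    have h4 := hb.injOn (hτ (hρ.1 hz)) (hτ hx) hzx
    exact hxρ (h4 ▸ hz)

/-- two distinct missing faces of the target with `s` vertices come from two distinct ones of the
source, and a missing face of the source gives one of the target -/
lemma iso_miss_card {X Y : Cplx} (h : Iso X Y) (s : ℕ) :
    ((miss X).filter fun τ => τ.card = s).card = ((miss Y).filter fun τ => τ.card = s).card := by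
  classical
  obtain ⟨φ, hb, hf⟩ := h
  have hinj : ∀ τ ⊆ verts X, (τ.image φ).card = τ.card := by
    intro τ hτ
    apply Finset.card_image_of_injOn
    intro x hx y hy hxy
    exact hb.injOn (hτ hx) (hτ hy) hxy
  refine Finset.card_bij (fun τ _ => τ.image φ) ?_ ?_ ?_
  · intro τ hτ
    rw [Finset.mem_filter, mem_miss] at hτ ⊢
    refine ⟨⟨?_, (iso_missing hb hf hτ.1.1).1 hτ.1.2⟩, by rw [hinj τ hτ.1.1]; exact hτ.2⟩
    intro y hy
    obtain ⟨x, hx, rfl⟩ := Finset.mem_image.1 hy
    exact hb.mapsTo (hτ.1.1 hx)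
  · intro τ hτ τ' hτ' h
    rw [Finset.mem_filter, mem_miss] at hτ hτ'
    have key : ∀ σ σ' : Finset ℕ, σ ⊆ verts X → σ' ⊆ verts X → σ.image φ = σ'.image φ → σ ⊆ σ' := by
      intro σ σ' hσ hσ' h x hx
      have h1 : φ x ∈ σ'.image φ := by rw [← h]; exact Finset.mem_image_of_mem φ hx
      obtain ⟨z, hz, hzx⟩ := Finset.mem_image.1 h1
      have := hb.injOn (hσ' hz) (hσ hx) hzx
      exact this ▸ hz
    exact Finset.Subset.antisymm (key _ _ hτ.1.1 hτ'.1.1 h) (key _ _ hτ'.1.1 hτ.1.1 h.symm)
  · intro τ hτ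
    rw [Finset.mem_filter, mem_miss] at hτ
    have h3 : ((verts X).filter fun x => φ x ∈ τ).image φ = τ := by
      ext y
      rw [Finset.mem_image]
      constructor
      · rintro ⟨x, hx, rfl⟩
        exact (Finset.mem_filter.1 hx).2
      · intro hy
        obtain ⟨x, hx, rfl⟩ := hb.surjOn (hτ.1.1 hy)
        exact ⟨x, Finset.mem_filter.2 ⟨hx, hy⟩, rfl⟩
    have h4 : ((verts X).filter fun x => φ x ∈ τ) ⊆ verts X := Finset.filter_subset _ _
    refine ⟨(verts X).filter fun x => φ x ∈ τ, ?_, h3⟩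
    rw [Finset.mem_filter, mem_miss]
    refine ⟨⟨h4, ?_⟩, ?_⟩
    · rw [iso_missing hb hf h4, h3]
      exact hτ.1.2
    · rw [← hinj _ h4, h3]
      exact hτ.2

/-- **Negative answer to Q1.**  (1) For all `k` and all `a, b, c ≥ 1` with `a + b + c = 2k` and
`a, b, c ≤ k - 1`, the join `∂σ^a * ∂σ^b * ∂σ^c` is a sphere in `S(k-1, 2k-1)` with `g_k = 1`.
(2) For every `k ≥ 5`, the sphere `∂σ^(k-1) * ∂σ^(k-2) * ∂σ^3`, which is in `S(k-1, 2k-1)` and has
`g_k = 1`, is not isomorphic to any `K(i, 2k-1)` with `2k/3 ≤ i < k` (where `2k = q i + r`,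
`1 ≤ r ≤ i`). -/
theorem result :
    (∀ k a b c : ℕ, 1 ≤ a → 1 ≤ b → 1 ≤ c → a ≤ k - 1 → b ≤ k - 1 → c ≤ k - 1 → a + b + c = 2 * k →
      InS (k - 1) (2 * k) (J a b c) ∧ gNum (2 * k) (J a b c).faces k = 1) ∧
    (∀ k : ℕ, 5 ≤ k →
      InS (k - 1) (2 * k) (J (k - 1) (k - 2) 3) ∧
      gNum (2 * k) (J (k - 1) (k - 2) 3).faces k = 1 ∧
      ∀ i q r : ℕ, 2 * k ≤ 3 * i → i < k → 1 ≤ r → r ≤ i → 2 * k = q * i + r →
        ¬ Iso (J (k - 1) (k - 2) 3) (K i q r)) := by
  classical
  have part1 : ∀ k a b c : ℕ, 1 ≤ a → 1 ≤ b → 1 ≤ c → a ≤ k - 1 → b ≤ k - 1 → c ≤ k - 1 →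
      a + b + c = 2 * k → InS (k - 1) (2 * k) (J a b c) ∧ gNum (2 * k) (J a b c).faces k = 1 := by
    intro k a b c ha hb hc ha' hb' hc' hs
    refine ⟨inS_jb _ _ (disj3 a b c) _ _ ?_ (card_le3 ha' hb' hc'),
      gNum3 hs (by omega) (by omega) (by omega)⟩
    rw [sum3, hs]
  refine ⟨part1, fun k hk => ?_⟩
  have h1 := part1 k (k - 1) (k - 2) 3 (by omega) (by omega) (by omega) (by omega) (by omega)
    (by omega) (by omega)
  refine ⟨h1.1, h1.2, ?_⟩
  intro i q r hi hik hr hri hs hiso
  have hq : q = 2 := by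
    have h2 : q * i < 3 * i := by omega
    have h3 : q < 3 := lt_of_mul_lt_mul_right h2 (Nat.zero_le i)
    have h4 : 2 * i < (q + 1) * i := by
      have : (q + 1) * i = q * i + i := by ring
      omega
    have h5 : 2 < q + 1 := lt_of_mul_lt_mul_right h4 (Nat.zero_le i)
    omega
  subst hq
  have hc := iso_miss_card hiso k
  have m1 : miss (J (k - 1) (k - 2) 3) = blocks3 (k - 1) (k - 2) 3 := by
    apply missing_jb _ _ (disj3 _ _ _)
    intro B hB
    unfold blocks3 at hB
    simp only [Finset.mem_insert, Finset.mem_singleton] at hB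
    rcases hB with rfl | rfl | rfl <;> rw [Nat.card_Ico] <;> omega
  have m2 : miss (K i 2 r) = blocks i 2 r := by
    apply missing_jb _ _ (blocks_disj hri)
    intro B hB
    obtain ⟨j, _, rfl⟩ := Finset.mem_image.1 hB
    rw [block_card]
    split_ifs <;> omega
  rw [m1, m2] at hc
  -- the source has exactly one missing face with `k` vertices
  have c1 : ((blocks3 (k - 1) (k - 2) 3).filter fun τ => τ.card = k).card = 1 := by
    rw [Finset.card_eq_one]
    refine ⟨Ico 0 (k - 1 + 1), ?_⟩
    ext B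
    rw [Finset.mem_filter, Finset.mem_singleton]
    constructor
    · rintro ⟨hB, hBk⟩
      unfold blocks3 at hB
      simp only [Finset.mem_insert, Finset.mem_singleton] at hB
      rcases hB with rfl | rfl | rfl
      · rfl
      · rw [Nat.card_Ico] at hBk; omega
      · rw [Nat.card_Ico] at hBk; omega
    · rintro rfl
      refine ⟨by unfold blocks3; simp, ?_⟩
      rw [Nat.card_Ico]
      omega
  rw [c1] at hc
  by_cases hik' : i + 1 = k
  · -- at least two missing faces with `k` vertices in `K(i, 2k-1)`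
    have h2 : ({block i 2 r 0, block i 2 r 1} : Finset (Finset ℕ)) ⊆
        (blocks i 2 r).filter fun τ => τ.card = k := by
      intro B hB
      rw [Finset.mem_insert, Finset.mem_singleton] at hB
      rw [Finset.mem_filter]
      rcases hB with rfl | rfl
      · exact ⟨Finset.mem_image_of_mem _ (by simp), by rw [block_card]; simpa using hik'⟩
      · exact ⟨Finset.mem_image_of_mem _ (by simp), by rw [block_card]; simpa using hik'⟩
    have h3 := Finset.card_le_card h2
    rw [Finset.card_pair (fun h => by have := block_inj hri h; omega)] at h3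
    omega
  · have h2 : (blocks i 2 r).filter (fun τ => τ.card = k) = ∅ := by
      rw [Finset.filter_eq_empty_iff]
      intro B hB
      obtain ⟨j, _, rfl⟩ := Finset.mem_image.1 hB
      rw [block_card]
      split_ifs <;> omega
    rw [h2, Finset.card_empty] at hc
    omega

end Pool.Agent.Results.MP_1b21e4_co.ThreeJoins
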